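import Pool.Agent.X186.IC.Clos

set_option autoImplicit false

/-!
Perfect matchings with empty intersection (Fan-Raspaud) in the cubic graphs of a class of graphs
closed under identification of vertices, edge-disjoint unions and sums along cuts with at most three
edges.

A finite graph, loops and parallel edges allowed, has the vertex set `V` and the edge set `E`; the
ends of the edge `e` are `s e` and `t e`. The class is the class `Closure` of
`Pool/Agent/Results/MP_40718a_co/CoverClosure.lean`.
-/

open Finset

namespace Pool.Agent.Results.MP_79b960_co.CoverClosure

open Pool.Agent.X186.IC (six_closure)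
open Pool.Agent.Results.MP_40718a_co.CoverClosure (Closure)

/-- every vertex has degree three, where a loop counts twice -/
def IsCubic {V E : Type} [DecidableEq V] [Fintype E] (s t : E → V) : Prop :=
  ∀ v, ∑ e, ((if s e = v then 1 else 0) + (if t e = v then 1 else 0)) = 3

/-- the set of edges `M` is a perfect matching: every vertex has degree one in it -/
def IsPerfectMatching {V E : Type} [DecidableEq V] (s t : E → V) (M : Finset E) : Prop :=
  ∀ v, ∑ e ∈ M, ((if s e = v then 1 else 0) + (if t e = v then 1 else 0)) = 1

/-- Let `G` be a finite cubic graph of the class `Closure`: the least class that contains all unions of two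
even subgraphs and all bridgeless graphs of treewidth at most four, of carving width at most five or
of cutwidth at most six, and that is closed under identification of vertices, edge-disjoint unions
(on a common set of vertices) and sums along cuts with at most three edges. Then `G` has six
perfect matchings such that each edge is in exactly two of them, so any three of them have no common
edge. -/
theorem result (V E : Type) [Fintype V] [DecidableEq V] [Fintype E] [DecidableEq E] (s t : E → V)
    (hc : IsCubic s t) (h : Closure s t) :
    ∃ M : Fin 6 → Finset E, (∀ i, IsPerfectMatching s t (M i)) ∧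
      (∀ e, (univ.filter (fun i => e ∈ M i)).card = 2) ∧
      ∀ i j k, i ≠ j → i ≠ k → j ≠ k → M i ∩ M j ∩ M k = ∅ := by
  obtain ⟨C, hC, h4⟩ := six_closure h
  refine ⟨fun i => (C i)ᶜ, fun i v => Pool.Agent.Y425.BF6.Cor.compl_one (hc v)
    (Pool.Agent.Y425.BF6.Cor.factor hC h4 v (hc v) i), fun e => ?_, ?_⟩
  · have h1 := card_filter_add_card_filter_not (s := (univ : Finset (Fin 6))) (fun i => e ∈ C i)
    rw [h4 e, card_univ, Fintype.card_fin] at h1
    have h2 : (univ.filter fun i : Fin 6 => e ∈ (C i)ᶜ) = univ.filter fun i => ¬ e ∈ C i := by
      ext i
      simp
    rw [h2]
    omega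
  · intro i j k hij hik hjk
    rw [eq_empty_iff_forall_notMem]
    intro e he
    rw [mem_inter, mem_inter, mem_compl, mem_compl, mem_compl] at he
    rcases Pool.Agent.Y425.BF6.Cor.three_cover h4 hij hik hjk e with h | h | h
    · exact he.1.1 h
    · exact he.1.2 h
    · exact he.2 h

end Pool.Agent.Results.MP_79b960_co.CoverClosure
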